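import Pool.Agent.V11245.OmegaPerf

/-!
# A thin closed set which is a continuous image of an `(ω+1)`-perfect set
-/

set_option autoImplicit false

namespace Pool.Agent.Results.MP_b008e1_lc.KurepaCounterexample

open Cardinal Set Pool.Agent.V11245.OmegaPerf

universe u

/-- Both questions of the problem have a negative answer at every regular uncountable `κ` carrying
a family of more than `κ^{<κ}` subsets of `κ` with fewer than `2^ω` traces on every `α < κ`; such a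
family exists for `κ = ω₁` if CH and Kurepa's hypothesis hold. -/
theorem result :
    (∀ κ : Cardinal.{u}, κ.IsRegular → ℵ₀ < κ → ThinBigFamily κ →
      ∃ D E : Set (Pt κ), OmegaPlusOnePerfect D ∧ IsClosed E ∧
        (∃ f : D → E, Continuous f ∧ Function.Surjective f) ∧
        (∀ X ⊆ E, #X ≤ κ ^< κ → ∃ x₀ ∈ E \ X, ¬ WinsII E x₀) ∧
        (∀ X ⊆ E, #X ≤ κ ^< κ → ¬ OmegaPlusOnePerfect (E \ X)) ∧
        (κ ^< κ < #E ∧ ∀ F ⊆ E, ∀ x₀, ¬ WinsII F x₀)) ∧
    ((𝔠 : Cardinal.{u}) = ℵ₁ → KurepaHypothesis.{u} → ThinBigFamily (ℵ₁ : Cardinal.{u})) := by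
  refine ⟨?_, thinBig_of_CH_KH⟩
  rintro κ hκ hω ⟨𝓑, hB, htr⟩
  obtain ⟨𝓒, hC, htr'⟩ := exists_points hκ 𝓑 hB htr
  obtain ⟨D, E, hD, hE, hf, hcard, hno⟩ := exists_nowin hκ hω 𝓒 hC htr'
  have hne : ∀ X ⊆ E, #X ≤ κ ^< κ → (E \ X).Nonempty := by
    intro X _ hX
    rw [nonempty_iff_ne_empty]
    intro hem
    rw [sdiff_eq_empty] at hem
    exact absurd ((Cardinal.mk_le_mk_of_subset hem).trans hX) (not_le.2 hcard)
  refine ⟨D, E, hD, hE, hf, ?_, ?_, hcard, hno⟩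
  · intro X hXE hX
    obtain ⟨x, hx⟩ := hne X hXE hX
    exact ⟨x, hx, hno E Subset.rfl x⟩
  · rintro X hXE hX ⟨-, hp⟩
    obtain ⟨x, hx⟩ := hne X hXE hX
    exact hno (E \ X) sdiff_subset x (hp x hx)

end Pool.Agent.Results.MP_b008e1_lc.KurepaCounterexample
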